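import Mathlib
import Pool.Agent.Y215.SP.Off
import Pool.Agent.Y215.SK.Ht1

set_option autoImplicit false
set_option linter.unusedSectionVars false

/-! # Roots of unity as multipliers and rational points -/

namespace Pool.Agent.X332.SM

open Finset NumberField MvPolynomial
open Pool.Agent.Helper259.AbsHt Pool.Agent.H533R3.SL Pool.Agent.Y215.SP Pool.Agent.Y215.SK

variable {n N r : ℕ}

section

variable {K F : Type} [Field K] [Field F]

theorem vec_ne (φ : K →+* F) {x : Fin (n + 1) → K} (hx : x ≠ 0) : (fun i => φ (x i)) ≠ 0 := by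
  intro h
  apply hx
  funext i
  exact (map_eq_zero φ).1 (congrFun h i)

/-- the map of projective spaces given by a homomorphism of fields -/
noncomputable def pmap (φ : K →+* F) (p : Projectivization K (Fin (n + 1) → K)) :
    Projectivization F (Fin (n + 1) → F) :=
  Projectivization.mk F (fun i => φ (p.rep i)) (vec_ne φ p.rep_nonzero)

theorem pmap_mk (φ : K →+* F) (x : Fin (n + 1) → K) (hx : x ≠ 0) :
    pmap φ (Projectivization.mk K x hx) = Projectivization.mk F (fun i => φ (x i)) (vec_ne φ hx) := by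
  obtain ⟨a, ha⟩ := Projectivization.exists_smul_eq_mk_rep K x hx
  unfold pmap
  rw [Projectivization.mk_eq_mk_iff']
  refine ⟨φ a, ?_⟩
  funext i
  rw [← ha]
  show φ a * φ (x i) = φ ((a : K) * x i)
  rw [map_mul]

theorem pmap_injective (φ : K →+* F) : Function.Injective (pmap (n := n) φ) := by
  intro p q h
  rw [← Projectivization.mk_rep p, ← Projectivization.mk_rep q, Projectivization.mk_eq_mk_iff']
  unfold pmap at h
  rw [Projectivization.mk_eq_mk_iff'] at h
  obtain ⟨c, hc⟩ := h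
  obtain ⟨i0, hi0⟩ := Function.ne_iff.1 q.rep_nonzero
  have hi0' : q.rep i0 ≠ 0 := hi0
  refine ⟨p.rep i0 / q.rep i0, ?_⟩
  funext i
  apply φ.injective
  have h1 : ∀ j, c * φ (q.rep j) = φ (p.rep j) := fun j => congrFun hc j
  have h2 : φ (q.rep i0) ≠ 0 := (map_ne_zero φ).2 hi0'
  rw [Pi.smul_apply, smul_eq_mul, map_mul, map_div₀, ← h1 i0, ← h1 i, mul_div_cancel_right₀ _ h2]

theorem aeval_hom {k : Type} [Field k] [Algebra k K] [Algebra k F] (φ : K →+* F)
    (hφ : φ.comp (algebraMap k K) = algebraMap k F) (x : Fin (n + 1) → K)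
    (Q : MvPolynomial (Fin (n + 1)) k) : aeval (fun i => φ (x i)) Q = φ (aeval x Q) := by
  have h1 : φ (aeval x Q) = MvPolynomial.eval₂ (φ.comp (algebraMap k K))
      (fun i => φ (x i)) Q := by
    rw [MvPolynomial.aeval_def]
    exact MvPolynomial.hom_eval₂ Q _ φ _
  rw [h1, MvPolynomial.aeval_def, hφ]

end

/-- the points over `K` of `P = 0` off `G = 0`, which over `Qbar` have homogeneous coordinates
`∑ t_j v_j`, for algebraic numbers `t_j` such that `(t_1 : … : t_r)` has height less than `ε` -/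
def ratSmall {k K : Type} [Field k] [Field K] [Algebra k K] (φ : K →+* Qbar)
    (P : Fin N → MvPolynomial (Fin (n + 1)) k) (G : MvPolynomial (Fin (n + 1)) k) (ε : ℝ)
    (v : Fin r → Fin (n + 1) → Qbar) : Set (Projectivization K (Fin (n + 1) → K)) :=
  {p | ∃ (y : Fin (n + 1) → K) (hy : y ≠ 0), p = Projectivization.mk K y hy ∧
    (∀ i, aeval y (P i) = 0) ∧ aeval y G ≠ 0 ∧
    ∃ t : Fin r → Qbar, absLogHeight t < ε ∧ ∀ a, φ (y a) = ∑ j, t j * v j a}

theorem ratSmall_le {k K : Type} [Field k] [Field K] [Algebra k K] (φ : K →+* Qbar)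
    (P : Fin N → MvPolynomial (Fin (n + 1)) k) (G : MvPolynomial (Fin (n + 1)) k) (ε : ℝ)
    (M : ℕ) (h : ∀ (L : Type) [Field L] [Algebra k L] (ι : Qbar →+* L)
      (v : Fin r → Fin (n + 1) → L), (smallOff ι P G ε v).encard ≤ M)
    (v : Fin r → Fin (n + 1) → Qbar) : (ratSmall φ P G ε v).encard ≤ M := by
  let _ : Algebra k Qbar := (φ.comp (algebraMap k K)).toAlgebra
  have hφ : φ.comp (algebraMap k K) = algebraMap k Qbar := rfl
  rw [← (pmap_injective (n := n) φ).injOn.encard_image]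
  refine (Set.encard_le_encard ?_).trans (h Qbar (RingHom.id Qbar) v)
  rintro _ ⟨p, ⟨y, hy, rfl, h1, h2, t, ht, hty⟩, rfl⟩
  have e : pt (RingHom.id Qbar) v t = fun a => φ (y a) := by
    funext a
    rw [hty a]
    rfl
  refine ⟨t, ht, fun i => ?_, ?_, ?_⟩
  · rw [e, aeval_hom φ hφ, h1, map_zero]
  · rw [e, aeval_hom φ hφ]
    exact (map_ne_zero φ).2 h2
  · have h3 : pt (RingHom.id Qbar) v t ≠ 0 := by
      rw [e]
      exact vec_ne φ hy
    refine ⟨h3, ?_⟩
    rw [pmap_mk]
    exact mk_congr _ _ e.symm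

theorem embed (L' : Type) [Field L'] [CharZero L'] [IsAlgClosed L'] : Nonempty (Qbar →+* L') := by
  let i1 : Algebra ℚ Qbar := AlgebraicClosure.instAlgebra ℚ
  have : Algebra.IsAlgebraic ℚ Qbar := AlgebraicClosure.isAlgebraic ℚ
  exact ⟨(IsAlgClosed.lift : Qbar →ₐ[ℚ] L').toRingHom⟩

theorem h1_root (z : Qbar) (m : ℕ) (hm : 0 < m) (hz : z ^ m = 1) : h1 z = 0 := by
  have h := h1_pow z m
  rw [hz, h1_one] at h
  have hm' : (m : ℝ) ≠ 0 := by exact_mod_cast hm.ne'
  rcases mul_eq_zero.1 h.symm with h2 | h2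
  · exact absurd h2 hm'
  · exact h2

theorem tors_le {k L : Type} [Field k] [CharZero k] [Field L] [Algebra k L]
    (P : Fin N → MvPolynomial (Fin (n + 1)) k) (G : MvPolynomial (Fin (n + 1)) k) (ε : ℝ)
    (hε : 0 < ε) (M : ℕ) (h : ∀ (L : Type) [Field L] [Algebra k L] (ι : Qbar →+* L)
      (v : Fin r → Fin (n + 1) → L), (smallOff ι P G ε v).encard ≤ M)
    (v : Fin r → Fin (n + 1) → L) : (torsOff P G v).encard ≤ M := by
  classical
  have hL : CharZero L := charZero_of_injective_algebraMap (algebraMap k L).injective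
  let L' := AlgebraicClosure L
  have hL' : CharZero L' := charZero_of_injective_algebraMap (algebraMap L L').injective
  obtain ⟨ι⟩ : Nonempty (Qbar →+* L') := embed L'
  let φ : L →+* L' := algebraMap L L'
  let _ : Algebra k L' := (φ.comp (algebraMap k L)).toAlgebra
  have hφ : φ.comp (algebraMap k L) = algebraMap k L' := rfl
  rw [← (pmap_injective (n := n) φ).injOn.encard_image]
  refine (Set.encard_le_encard ?_).trans (h L' ι (fun j a => φ (v j a)))
  rintro _ ⟨p, ⟨ζ, hζ, h1, h2, h0, rfl⟩, rfl⟩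
  -- the roots of unity come from `Qbar`
  have hroot : ∀ j, ∃ t : Qbar, ι t = φ (ζ j) ∧ ∃ m : ℕ, 0 < m ∧ t ^ m = 1 := by
    intro j
    obtain ⟨m, hm, hm1⟩ := hζ j
    have hsp : ((Polynomial.X ^ m - 1 : Polynomial Qbar)).Splits := IsAlgClosed.splits _
    have hne : ((Polynomial.X ^ m - 1 : Polynomial Qbar)) ≠ 0 :=
      (Polynomial.monic_X_pow_sub_C 1 hm.ne').ne_zero
    have hmem : φ (ζ j) ∈ ((Polynomial.X ^ m - 1 : Polynomial Qbar).map ι).roots := by
      rw [Polynomial.mem_roots (Polynomial.map_ne_zero hne), Polynomial.IsRoot.def]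
      rw [Polynomial.map_sub, Polynomial.map_pow, Polynomial.map_X, Polynomial.map_one,
        Polynomial.eval_sub, Polynomial.eval_pow, Polynomial.eval_X, Polynomial.eval_one,
        ← map_pow, hm1, map_one, sub_self]
    rw [hsp.roots_map, Multiset.mem_map] at hmem
    obtain ⟨t, ht, hte⟩ := hmem
    refine ⟨t, hte, m, hm, ?_⟩
    rw [Polynomial.mem_roots hne, Polynomial.IsRoot.def, Polynomial.eval_sub, Polynomial.eval_pow,
      Polynomial.eval_X, Polynomial.eval_one, sub_eq_zero] at ht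
    exact ht
  choose t ht m hm htm using hroot
  have e : pt ι (fun j a => φ (v j a)) t = fun a => φ (∑ j, ζ j * v j a) := by
    funext a
    rw [map_sum]
    refine Finset.sum_congr rfl fun j _ => ?_
    rw [ht, map_mul]
  refine ⟨t, ?_, fun i => ?_, ?_, ?_⟩
  · refine lt_of_le_of_lt (height_le_sum t) ?_
    rw [Finset.sum_eq_zero fun j _ => h1_root (t j) (m j) (hm j) (htm j)]
    exact hε
  · rw [e, aeval_hom φ hφ (fun a => ∑ j, ζ j * v j a), h1, map_zero]
  · rw [e, aeval_hom φ hφ (fun a => ∑ j, ζ j * v j a)]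
    exact (map_ne_zero φ).2 h2
  · have h3 : pt ι (fun j a => φ (v j a)) t ≠ 0 := by
      rw [e]
      exact vec_ne φ (x := fun a => ∑ j, ζ j * v j a) h0
    refine ⟨h3, ?_⟩
    rw [pmap_mk]
    exact mk_congr _ _ e.symm

end Pool.Agent.X332.SM
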