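import Mathlib
import Pool.Agent.Y215.SP.Off
import Pool.Agent.Y215.SK.Defs2
import Pool.Agent.TH409.SH.Conv

set_option autoImplicit false
set_option linter.unusedSectionVars false
set_option linter.unusedSimpArgs false

/-! # Roots of unity as multipliers: converse -/

namespace Pool.Agent.X332.SM

open Finset NumberField MvPolynomial
open Pool.Agent.Helper259.AbsHt Pool.Agent.H533R3.SL Pool.Agent.Y215.SP Pool.Agent.Y215.SK

variable {n N r : ℕ}

theorem infinite_roots : {z : Qbar | ∃ m : ℕ, 0 < m ∧ z ^ m = 1}.Infinite := by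
  have h : ∀ m : ℕ, ∃ z : Qbar, IsPrimitiveRoot z (m + 1) := by
    intro m
    have hne : NeZero ((m + 1 : ℕ) : Qbar) := ⟨by exact_mod_cast Nat.succ_ne_zero m⟩
    have := IsSepClosed.hasEnoughRootsOfUnity Qbar (m + 1)
    exact HasEnoughRootsOfUnity.exists_primitiveRoot Qbar (m + 1)
  choose z hz using h
  refine (Set.infinite_range_of_injective (f := z) ?_).mono ?_
  · intro a b hab
    have h1 := (hz a).eq_orderOf
    have h2 := (hz b).eq_orderOf
    rw [hab, ← h2] at h1
    omega
  · rintro _ ⟨m, rfl⟩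
    exact ⟨m + 1, Nat.succ_pos m, (hz m).pow_eq_one⟩

/-- **Converse with roots of unity.** -/
theorem converse_tors (k : Type) [Field k] [NumberField k]
    (P : Fin N → MvPolynomial (Fin (n + 1)) k) (hu : Uniruled (Ideal.span (Set.range P))) :
    ∃ r : ℕ, ∀ G : MvPolynomial (Fin (n + 1)) k, (∃ e, G.IsHomogeneous e) →
      G ∉ Ideal.span (Set.range P) →
      ∃ (_ : Algebra k Qbar) (v : Fin r → Fin (n + 1) → Qbar), (torsOff P G v).Infinite := by
  classical
  obtain ⟨L, _, _, p, hp, hgen, hc⟩ := hu
  obtain ⟨M, hM⟩ : ∃ M : ℕ, ∀ i m, M ≤ m → (p i).coeff m = 0 := by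
    refine ⟨∑ i, (p i).natDegree + 1, fun i m hm => Polynomial.coeff_eq_zero_of_natDegree_lt ?_⟩
    have : (p i).natDegree ≤ ∑ i, (p i).natDegree :=
      Finset.single_le_sum (f := fun i => (p i).natDegree) (fun _ _ => Nat.zero_le _)
        (Finset.mem_univ i)
    omega
  refine ⟨M, fun G hG hGI => ?_⟩
  obtain ⟨K, _, _, _, v, hv1, ⟨i1, i2, hv2⟩, hv3⟩ :=
    Pool.Agent.TH409.SH.specialise (n := n) k L p (Set.range P)
      (fun F hF => hp F (Ideal.subset_span hF)) M hM hc G (hgen G hG hGI)
  -- an embedding in `Qbar`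
  obtain ⟨φ⟩ : Nonempty (K →+* Qbar) := ⟨(IsAlgClosed.lift : K →ₐ[ℚ] Qbar).toRingHom⟩
  let _ : Algebra k Qbar := (φ.comp (algebraMap k K)).toAlgebra
  refine ⟨inferInstance, fun j i => φ (v j i), ?_⟩
  let q0 : Fin (n + 1) → Polynomial K := cur v (fun j => (j : ℕ))
  let q : Fin (n + 1) → Polynomial Qbar := fun i => (q0 i).map φ
  have hq0 : ∀ F : MvPolynomial (Fin (n + 1)) k,
      (aeval q F : Polynomial Qbar) = (aeval q0 F : Polynomial K).map φ := by
    intro F
    have h1 : (aeval q0 F : Polynomial K).map φ =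
        MvPolynomial.eval₂ ((Polynomial.mapRingHom φ).comp (algebraMap k (Polynomial K)))
          (fun i => Polynomial.mapRingHom φ (q0 i)) F := by
      rw [MvPolynomial.aeval_def]
      exact MvPolynomial.hom_eval₂ F _ (Polynomial.mapRingHom φ) _
    rw [h1, MvPolynomial.aeval_def]
    congr 1
    refine RingHom.ext fun a => ?_
    show _ = Polynomial.map φ (algebraMap k (Polynomial K) a)
    rw [Polynomial.algebraMap_apply, Polynomial.algebraMap_apply]
    show Polynomial.C (φ (algebraMap k K a)) = Polynomial.map φ (Polynomial.C (algebraMap k K a))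
    rw [Polynomial.map_C]
  have hP0 : ∀ i, aeval q (P i) = 0 := fun i => by
    rw [hq0, show (aeval q0 (P i) : Polynomial K) = 0 from hv1 _ ⟨i, rfl⟩, Polynomial.map_zero]
  have hev : ∀ (F : MvPolynomial (Fin (n + 1)) k) (z : Qbar),
      aeval (fun i => (q i).eval z) F = (aeval q F : Polynomial Qbar).eval z := by
    intro F z
    have h1 : (aeval q F : Polynomial Qbar).eval z =
        MvPolynomial.eval₂ ((Polynomial.evalRingHom z).comp (algebraMap k (Polynomial Qbar)))
          (fun i => Polynomial.evalRingHom z (q i)) F := by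
      rw [MvPolynomial.aeval_def]
      exact MvPolynomial.hom_eval₂ F _ (Polynomial.evalRingHom z) _
    rw [h1, MvPolynomial.aeval_def]
    congr 1
    refine RingHom.ext fun a => ?_
    show _ = Polynomial.eval z (algebraMap k (Polynomial Qbar) a)
    rw [Polynomial.algebraMap_apply]
    show _ = Polynomial.eval z (Polynomial.C _)
    rw [Polynomial.eval_C]
  have hG0 : (aeval q0 G : Polynomial K) ≠ 0 := by
    intro h
    apply hv3
    have h1 : aeval (fun i => (q0 i).eval 1) G = (aeval q0 G : Polynomial K).eval 1 := by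
      have h1 : (aeval q0 G : Polynomial K).eval 1 =
          MvPolynomial.eval₂ ((Polynomial.evalRingHom 1).comp (algebraMap k (Polynomial K)))
            (fun i => Polynomial.evalRingHom 1 (q0 i)) G := by
        rw [MvPolynomial.aeval_def]
        exact MvPolynomial.hom_eval₂ G _ (Polynomial.evalRingHom 1) _
      rw [h1, MvPolynomial.aeval_def]
      congr 1
      refine RingHom.ext fun a => ?_
      show _ = Polynomial.eval 1 (algebraMap k (Polynomial K) a)
      rw [Polynomial.algebraMap_apply]
      show _ = Polynomial.eval 1 (Polynomial.C _)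
      rw [Polynomial.eval_C]
    rw [h, Polynomial.eval_zero] at h1
    exact h1
  have hG1 : (aeval q G : Polynomial Qbar) ≠ 0 := by
    rw [hq0]
    exact (Polynomial.map_ne_zero_iff φ.injective).2 hG0
  have hnc0 : q0 i1 * Polynomial.C ((q0 i2).eval 1) ≠ q0 i2 * Polynomial.C ((q0 i1).eval 1) := hv2
  have hev1 : ∀ i, (q i).eval 1 = φ ((q0 i).eval 1) := by
    intro i
    show ((q0 i).map φ).eval 1 = _
    rw [Polynomial.eval_map, Polynomial.eval, Polynomial.hom_eval₂, map_one, RingHom.comp_id]
  have hnc : q i1 * Polynomial.C ((q i2).eval 1) ≠ q i2 * Polynomial.C ((q i1).eval 1) := by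
    intro h
    apply hnc0
    apply Polynomial.map_injective φ φ.injective
    rw [Polynomial.map_mul, Polynomial.map_mul, Polynomial.map_C, Polynomial.map_C, ← hev1,
      ← hev1]
    exact h
  have hpoint : ∀ z : Qbar, (fun i => (q i).eval z) =
      fun a => ∑ j : Fin M, z ^ (j : ℕ) * φ (v j a) := by
    intro z
    funext i
    show ((∑ j : Fin M, Polynomial.C (v j i) * Polynomial.X ^ (j : ℕ)).map φ).eval z = _
    rw [Polynomial.map_sum, Polynomial.eval_finsetSum]
    refine Finset.sum_congr rfl fun j _ => ?_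
    rw [Polynomial.map_mul, Polynomial.map_C, Polynomial.map_pow, Polynomial.map_X,
      Polynomial.eval_mul, Polynomial.eval_C, Polynomial.eval_pow, Polynomial.eval_X, mul_comm]
  intro hfin
  -- the exceptional parameters
  have hne0 : q i1 ≠ 0 ∨ q i2 ≠ 0 := by
    by_contra h
    push Not at h
    apply hnc
    rw [h.1, h.2]
  obtain ⟨i0, hi0⟩ : ∃ i0, q i0 ≠ 0 := hne0.elim (fun h => ⟨_, h⟩) (fun h => ⟨_, h⟩)
  have hbad : {z : Qbar | (q i0 * aeval q G).eval z = 0}.Finite :=
    Polynomial.finite_setOfPred_isRoot (mul_ne_zero hi0 hG1)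
  have hfib : ∀ y : Fin (n + 1) → Qbar, y ≠ 0 →
      {z : Qbar | ∀ i j, (q i).eval z * y j = (q j).eval z * y i}.Finite := by
    intro y hy
    have h1 : ∃ i j, q i * Polynomial.C (y j) ≠ q j * Polynomial.C (y i) := by
      by_contra h
      push Not at h
      obtain ⟨j0, hj0⟩ := Function.ne_iff.1 hy
      simp only [Pi.zero_apply] at hj0
      have h2 : ∀ i, q i = q j0 * Polynomial.C (y i / y j0) := by
        intro i
        have h3 := h i j0
        have h4 : q i * Polynomial.C (y j0) * Polynomial.C (y j0)⁻¹ =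
            q j0 * Polynomial.C (y i) * Polynomial.C (y j0)⁻¹ := by rw [h3]
        rw [mul_assoc, mul_assoc, ← Polynomial.C_mul, ← Polynomial.C_mul, mul_inv_cancel₀ hj0,
          Polynomial.C_1, mul_one, ← div_eq_mul_inv] at h4
        exact h4
      apply hnc
      rw [h2 i1, h2 i2]
      simp only [Polynomial.eval_mul, Polynomial.eval_C, Polynomial.C_mul]
      ring
    obtain ⟨i, j, hij⟩ := h1
    refine (Polynomial.finite_setOfPred_isRoot (sub_ne_zero.2 hij)).subset ?_
    intro t ht
    have := ht i j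
    show Polynomial.eval t _ = 0
    rw [Polynomial.eval_sub, Polynomial.eval_mul, Polynomial.eval_mul, Polynomial.eval_C,
      Polynomial.eval_C, this, sub_self]
  have hsub : {z : Qbar | ∃ m : ℕ, 0 < m ∧ z ^ m = 1} ⊆
      {z : Qbar | (q i0 * aeval q G).eval z = 0} ∪
      ⋃ p ∈ torsOff P G (fun (j : Fin M) i => φ (v j i)),
        {z : Qbar | ∀ i j, (q i).eval z * p.rep j = (q j).eval z * p.rep i} := by
    rintro z ⟨m, hm, hzm⟩
    by_cases h : (q i0 * aeval q G).eval z = 0
    · exact Or.inl h
    · right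
      rw [Polynomial.eval_mul] at h
      have h1 : (q i0).eval z ≠ 0 := left_ne_zero_of_mul h
      have h2 : (aeval q G : Polynomial Qbar).eval z ≠ 0 := right_ne_zero_of_mul h
      have h3 : (fun i => (q i).eval z) ≠ 0 := by
        intro h0
        apply h1
        exact congrFun h0 i0
      have h3' : (fun a => ∑ j : Fin M, z ^ (j : ℕ) * φ (v j a)) ≠ 0 := by
        rw [← hpoint]
        exact h3
      rw [Set.mem_iUnion₂]
      refine ⟨Projectivization.mk Qbar _ h3, ⟨fun j => z ^ (j : ℕ), ?_, ?_, ?_, h3', ?_⟩, ?_⟩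
      · intro j
        exact ⟨m, hm, by rw [← pow_mul, mul_comm, pow_mul, hzm, one_pow]⟩
      · intro i
        rw [← hpoint, hev, hP0, Polynomial.eval_zero]
      · rw [← hpoint, hev]
        exact h2
      · congr 1
        exact hpoint z
      · obtain ⟨a, ha⟩ := Projectivization.exists_smul_eq_mk_rep Qbar _ h3
        intro i j
        rw [← ha]
        show _ * ((a : Qbar) • (fun i => (q i).eval z)) j =
          _ * ((a : Qbar) • (fun i => (q i).eval z)) i
        simp only [Pi.smul_apply, smul_eq_mul]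
        ring
  exact infinite_roots ((hbad.union (hfin.biUnion fun p _ => hfib p.rep p.rep_nonzero)).subset hsub)

end Pool.Agent.X332.SM
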