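import Mathlib
import Pool.Agent.X332.SM.Conv
import Pool.Agent.X332.SM.Bnd
import Pool.Agent.Y215.SK.FinC

set_option autoImplicit false
set_option linter.unusedSectionVars false

/-! # Points near groups of finite rank: converse -/

namespace Pool.Agent.X332.SM

open Finset NumberField MvPolynomial
open Pool.Agent.Helper259.AbsHt Pool.Agent.H533R3.SL Pool.Agent.Y215.SP Pool.Agent.Y215.SK

variable {n N r : ℕ}

theorem torsOff_subset_mix {k : Type} [Field k] [Algebra k Qbar]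
    (P : Fin N → MvPolynomial (Fin (n + 1)) k) (G : MvPolynomial (Fin (n + 1)) k)
    (Γ : Subgroup Qbarˣ) (ε : ℝ) (hε : 0 < ε) (V : Fin r → Fin (n + 1) → Qbar) :
    torsOff P G V ⊆ mixPts P G Γ ε V := by
  rintro p ⟨ζ, hζ, h1, h2, h0, rfl⟩
  have hz : ∀ j, ζ j ≠ 0 := by
    intro j h
    obtain ⟨m, hm, hm1⟩ := hζ j
    rw [h, zero_pow hm.ne'] at hm1
    exact zero_ne_one hm1
  have e : psum Finset.univ (fun j => Units.mk0 (ζ j) (hz j)) (fun j a => (1 : Qbar) * V j a) =
      fun a => ∑ j, ζ j * V j a := by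
    funext a
    unfold Y215.SK.psum
    refine Finset.sum_congr rfl fun j _ => ?_
    show ((Units.mk0 (ζ j) (hz j) : Qbarˣ) : Qbar) * (1 * V j a) = ζ j * V j a
    rw [Units.val_mk0, one_mul]
  refine ⟨fun j => Units.mk0 (ζ j) (hz j), fun _ => 1, fun j => ?_, ?_, ⟨?_, ?_, ?_⟩, ?_⟩
  · obtain ⟨m, hm, hm1⟩ := hζ j
    refine ⟨m, hm, ?_⟩
    have h3 : (Units.mk0 (ζ j) (hz j)) ^ m = 1 := by
      apply Units.ext
      rw [Units.val_pow_eq_pow_val, Units.val_mk0, hm1, Units.val_one]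
    rw [h3]
    exact Subgroup.one_mem _
  · rw [Y215.SP.abs_one]
    exact hε
  · rw [e]
    exact h0
  · intro i
    rw [e]
    exact h1 i
  · rw [e]
    exact h2
  · have h3 : psum Finset.univ (fun j => Units.mk0 (ζ j) (hz j))
        (fun j a => (1 : Qbar) * V j a) ≠ 0 := by
      rw [e]
      exact h0
    exact ⟨h3, mk_congr _ _ e.symm⟩

end Pool.Agent.X332.SM
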